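import Pool.Agent.N859.QW.Stm

/-!
# Project QW (helper859): Day's trick without trace class operators (helper163)

The vector functionals form a convex set in the dual of `B(K)`; a functional on the dual, restricted
to the vector functionals, is given by an operator.
-/

set_option autoImplicit false

open scoped InnerProductSpace CStarAlgebra

namespace Pool.Agent.N163.QW

open Pool.Agent.N859.QW

noncomputable section

variable {K : Type} [NormedAddCommGroup K] [InnerProductSpace ℂ K]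

/-- the functional `V ↦ ⟪v, V w⟫` -/
def om (v w : K) : (K →L[ℂ] K) →L[ℂ] ℂ :=
  (innerSL ℂ v).comp (ContinuousLinearMap.apply ℂ K w)

theorem om_apply (v w : K) (V : K →L[ℂ] K) : om v w V = ⟪v, V w⟫_ℂ := rfl

theorem om_norm (v w : K) : ‖om v w‖ ≤ ‖v‖ * ‖w‖ := by
  refine ContinuousLinearMap.opNorm_le_bound _ (by positivity) fun V => ?_
  rw [om_apply]
  calc ‖⟪v, V w⟫_ℂ‖ ≤ ‖v‖ * ‖V w‖ := norm_inner_le_norm _ _
    _ ≤ ‖v‖ * (‖V‖ * ‖w‖) := by gcongr; exact V.le_opNorm w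
    _ = _ := by ring

theorem om_smul (c : ℝ) (v w : K) :
    om ((c : ℂ) • v) ((c : ℂ) • w) = ((c ^ 2 : ℝ) : ℂ) • om v w := by
  ext V
  rw [om_apply, smul_apply, om_apply, map_smul, inner_smul_left,
    inner_smul_right, Complex.conj_ofReal, smul_eq_mul]
  push_cast
  ring

variable [CompleteSpace K]

/-- the operator of a functional on the functionals -/
theorem exists_op (f : ((K →L[ℂ] K) →L[ℂ] ℂ) →L[ℂ] ℂ) :
    ∃ V : K →L[ℂ] K, ∀ v w, ⟪v, V w⟫_ℂ = f (om v w) := by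
  let B₀ : K →ₗ⋆[ℂ] K →ₗ[ℂ] ℂ := LinearMap.mk₂'ₛₗ (starRingEnd ℂ) (RingHom.id ℂ)
    (fun v w => f (om v w))
    (fun v v' w => by
      rw [← map_add]
      congr 1
      ext V
      simp [om_apply])
    (fun c v w => by
      rw [← map_smul]
      congr 1
      ext V
      simp [om_apply, mul_comm])
    (fun v w w' => by
      rw [← map_add]
      congr 1
      ext V
      simp [om_apply])
    (fun c v w => by
      rw [RingHom.id_apply, ← map_smul]
      congr 1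
      ext V
      simp [om_apply])
  have hB₀ : ∀ v w, B₀ v w = f (om v w) := fun _ _ => rfl
  let B : K →L⋆[ℂ] K →L[ℂ] ℂ := LinearMap.mkContinuous₂ B₀ ‖f‖ (fun v w => by
    rw [hB₀]
    calc ‖f (om v w)‖ ≤ ‖f‖ * ‖om v w‖ := f.le_opNorm _
      _ ≤ ‖f‖ * (‖v‖ * ‖w‖) := by gcongr; exact om_norm v w
      _ = _ := by ring)
  have hB : ∀ v w, B v w = f (om v w) := fun _ _ => rfl
  refine ⟨ContinuousLinearMap.adjoint (InnerProductSpace.continuousLinearMapOfBilin B),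
    fun v w => ?_⟩
  rw [ContinuousLinearMap.adjoint_inner_right, InnerProductSpace.continuousLinearMapOfBilin_apply,
    hB]

/-- the space of the defects -/
abbrev EE (K : Type) [NormedAddCommGroup K] [InnerProductSpace ℂ K] (m n : ℕ) : Type :=
  (Fin m → ((K →L[ℂ] K) →L[ℂ] ℂ)) × (Fin n → ℂ)

/-- the defects of a vector -/
def qq {m n : ℕ} (b : Fin m → (K →L[ℂ] K)) (X : Fin n → (K →L[ℂ] K)) (v : K) : EE K m n :=
  (fun i => om v v - om (b i v) (b i v), fun j => ⟪v, X j v⟫_ℂ)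

omit [CompleteSpace K] in
theorem qq_smul {m n : ℕ} (b : Fin m → (K →L[ℂ] K)) (X : Fin n → (K →L[ℂ] K)) (c : ℝ) (v : K) :
    qq b X ((c : ℂ) • v) = (c ^ 2 : ℝ) • qq b X v := by
  have h1 : qq b X ((c : ℂ) • v) = ((c ^ 2 : ℝ) : ℂ) • qq b X v := by
    refine Prod.ext ?_ ?_
    · funext i
      show om ((c : ℂ) • v) ((c : ℂ) • v) - om (b i ((c : ℂ) • v)) (b i ((c : ℂ) • v)) =
        ((c ^ 2 : ℝ) : ℂ) • (om v v - om (b i v) (b i v))
      rw [map_smul, om_smul, om_smul, smul_sub]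
    · funext j
      show ⟪(c : ℂ) • v, X j ((c : ℂ) • v)⟫_ℂ = ((c ^ 2 : ℝ) : ℂ) • ⟪v, X j v⟫_ℂ
      rw [← om_apply, om_smul]
      rfl
  rw [h1]
  refine Prod.ext (funext fun i => ContinuousLinearMap.ext fun V => ?_) (funext fun j => ?_)
  · exact (Complex.real_smul (x := c ^ 2) (z := (qq b X v).1 i V)).symm
  · exact (Complex.real_smul (x := c ^ 2) (z := (qq b X v).2 j)).symm

instance {m n : ℕ} : IsScalarTower ℝ ℂ (EE K m n) :=
  ⟨fun x y z => Prod.ext (funext fun i => ContinuousLinearMap.ext fun V =>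
    smul_assoc x y (z.1 i V)) (funext fun j => smul_assoc x y (z.2 j))⟩

theorem t_day : S_DAY := by
  intro K _ _ _ φ m n b X h1 hstar hpos hinv hX ε hε
  by_contra hcon
  let C : Set (EE K m n) := {e | ∃ (N : ℕ) (ζ : Fin N → K), ∑ k, ‖ζ k‖ ^ 2 = 1 ∧
    e = ∑ k, qq b X (ζ k)}
  have hconv : Convex ℝ C := by
    rintro x ⟨N, ζ, hζ, rfl⟩ y ⟨N', ζ', hζ', rfl⟩ s t hs ht hst
    refine ⟨N + N', Fin.append (fun k => ((√s : ℝ) : ℂ) • ζ k) (fun k => ((√t : ℝ) : ℂ) • ζ' k),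
      ?_, ?_⟩
    · rw [Fin.sum_univ_add]
      simp only [Fin.append_left, Fin.append_right, norm_smul, mul_pow, Complex.norm_real,
        Real.norm_eq_abs, sq_abs, Real.sq_sqrt hs, Real.sq_sqrt ht]
      rw [← Finset.mul_sum, ← Finset.mul_sum, hζ, hζ', mul_one, mul_one, hst]
    · rw [Fin.sum_univ_add]
      simp only [Fin.append_left, Fin.append_right, qq_smul, Real.sq_sqrt hs, Real.sq_sqrt ht]
      rw [← Finset.smul_sum, ← Finset.smul_sum]
  have hdisj : Disjoint (Metric.ball (0 : EE K m n) ε) C := by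
    rw [Set.disjoint_left]
    rintro e he ⟨N, ζ, hζ, rfl⟩
    rw [mem_ball_zero_iff] at he
    refine hcon ⟨N, ζ, hζ, fun i V hV => ?_, fun j => ?_⟩
    · have h2 : ‖(∑ k, qq b X (ζ k)).1 i‖ ≤ ε :=
        (norm_le_pi_norm _ i).trans ((norm_fst_le _).trans he.le)
      have h3 : (∑ k, qq b X (ζ k)).1 i V =
          ∑ k, (⟪ζ k, V (ζ k)⟫_ℂ - ⟪b i (ζ k), V (b i (ζ k))⟫_ℂ) := by
        rw [Prod.fst_sum, Finset.sum_apply, sum_apply]
        rfl
      rw [← h3]
      calc ‖(∑ k, qq b X (ζ k)).1 i V‖ ≤ ‖(∑ k, qq b X (ζ k)).1 i‖ * ‖V‖ :=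
            ContinuousLinearMap.le_opNorm _ _
        _ ≤ ε * 1 := by gcongr
        _ = ε := mul_one _
    · have h2 : ‖(∑ k, qq b X (ζ k)).2 j‖ ≤ ε :=
        (norm_le_pi_norm _ j).trans ((norm_snd_le _).trans he.le)
      have h3 : (∑ k, qq b X (ζ k)).2 j = ∑ k, ⟪ζ k, X j (ζ k)⟫_ℂ := by
        rw [Prod.snd_sum, Finset.sum_apply]
        rfl
      rw [← h3]
      exact h2
  obtain ⟨f, u, hf1, hf2⟩ := RCLike.geometric_hahn_banach_open (𝕜 := ℂ)
    (convex_ball (0 : EE K m n) ε) Metric.isOpen_ball hconv hdisj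
  have hu : 0 < u := by
    have h2 := hf1 0 (Metric.mem_ball_self hε)
    simpa using h2
  -- the operators
  let fi : Fin m → (((K →L[ℂ] K) →L[ℂ] ℂ) →L[ℂ] ℂ) := fun i => f.comp
    ((ContinuousLinearMap.inl ℂ (Fin m → ((K →L[ℂ] K) →L[ℂ] ℂ)) (Fin n → ℂ)).comp
      (ContinuousLinearMap.single ℂ (fun _ : Fin m => ((K →L[ℂ] K) →L[ℂ] ℂ)) i))
  choose V hV using fun i => exists_op (fi i)
  let μ : Fin n → ℂ := fun j => f (0, Pi.single j 1)
  set Y : K →L[ℂ] K := ∑ i, (V i - star (b i) * V i * b i) + ∑ j, μ j • X j with hY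
  have hdec : ∀ e : EE K m n, f e = ∑ i, fi i (e.1 i) + ∑ j, μ j * e.2 j := by
    intro e
    have h2 : e = ContinuousLinearMap.inl ℂ (Fin m → ((K →L[ℂ] K) →L[ℂ] ℂ)) (Fin n → ℂ)
        (∑ i, Pi.single i (e.1 i)) + ∑ j, e.2 j • ((0, Pi.single j 1) : EE K m n) := by
      refine Prod.ext ?_ ?_
      · rw [Prod.fst_add, Prod.fst_sum]
        have h3 : ∑ j, (e.2 j • ((0, Pi.single j 1) : EE K m n)).1 = 0 :=
          Finset.sum_eq_zero fun j _ => by
            show e.2 j • (0 : Fin m → ((K →L[ℂ] K) →L[ℂ] ℂ)) = 0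
            funext i
            exact smul_zero (A := (K →L[ℂ] K) →L[ℂ] ℂ) (e.2 j)
        rw [h3, add_zero]
        exact (Finset.univ_sum_single e.1).symm
      · rw [Prod.snd_add, Prod.snd_sum]
        simp only [ContinuousLinearMap.inl_apply, Prod.smul_snd, zero_add]
        funext j
        simp [Finset.sum_apply, Pi.single_apply]
    have h3 : f e = f (ContinuousLinearMap.inl ℂ (Fin m → ((K →L[ℂ] K) →L[ℂ] ℂ)) (Fin n → ℂ)
        (∑ i, Pi.single i (e.1 i))) + f (∑ j, e.2 j • ((0, Pi.single j 1) : EE K m n)) := by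
      rw [← map_add, ← h2]
    rw [h3, map_sum, map_sum, map_sum]
    congr 1
    refine Finset.sum_congr rfl fun j _ => ?_
    rw [map_smul, smul_eq_mul, mul_comm]
  have hfY : ∀ v, f (qq b X v) = ⟪v, Y v⟫_ℂ := by
    intro v
    rw [hdec, hY, add_apply, inner_add_right, sum_apply,
      inner_sum, sum_apply, inner_sum]
    congr 1
    · refine Finset.sum_congr rfl fun i _ => ?_
      show fi i (om v v - om (b i v) (b i v)) = _
      rw [map_sub, ← hV, ← hV, sub_apply, inner_sub_right]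
      congr 1
      show _ = ⟪v, (star (b i)) (V i (b i v))⟫_ℂ
      rw [ContinuousLinearMap.star_eq_adjoint, ContinuousLinearMap.adjoint_inner_right]
    · refine Finset.sum_congr rfl fun j _ => ?_
      show μ j * ⟪v, X j v⟫_ℂ = ⟪v, μ j • X j v⟫_ℂ
      rw [inner_smul_right]
  have hlow : ∀ v, u * ‖v‖ ^ 2 ≤ (⟪v, Y v⟫_ℂ).re := by
    intro v
    by_cases hv : v = 0
    · rw [hv]
      simp
    have hv0 : 0 < ‖v‖ := norm_pos_iff.2 hv
    have h2 := hf2 (qq b X (((‖v‖⁻¹ : ℝ) : ℂ) • v)) ⟨1, fun _ => ((‖v‖⁻¹ : ℝ) : ℂ) • v, by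
      rw [Fin.sum_univ_one, norm_smul, Complex.norm_real, Real.norm_eq_abs,
        abs_of_pos (inv_pos.2 hv0), inv_mul_cancel₀ hv0.ne', one_pow], by
      rw [Fin.sum_univ_one]⟩
    have h22 : f ((‖v‖⁻¹ ^ 2 : ℝ) • qq b X v) = ((‖v‖⁻¹ ^ 2 : ℝ) : ℂ) * ⟪v, Y v⟫_ℂ := by
      rw [← hfY, ← smul_eq_mul, ← map_smul]
      congr 1
    rw [qq_smul, h22, RCLike.re_eq_complex_re, Complex.re_ofReal_mul] at h2
    have h3 := mul_le_mul_of_nonneg_right h2 (sq_nonneg ‖v‖)
    have h4 : ‖v‖⁻¹ ^ 2 * (⟪v, Y v⟫_ℂ).re * ‖v‖ ^ 2 = (⟪v, Y v⟫_ℂ).re := by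
      field_simp
    linarith
  have hφY : φ Y = 0 := by
    rw [hY, map_add, map_sum, map_sum]
    have h2 : ∀ i, φ (V i - star (b i) * V i * b i) = 0 := fun i => by
      rw [map_sub, hinv, sub_self]
    have h3 : ∀ j, φ (μ j • X j) = 0 := fun j => by rw [map_smul, hX, smul_zero]
    simp [h2, h3]
  -- the positive operator
  set Z : K →L[ℂ] K := (1 / 2 : ℂ) • (Y + star Y) - (u : ℂ) • (1 : K →L[ℂ] K) with hZ
  have hZpos : 0 ≤ Z := by
    rw [ContinuousLinearMap.nonneg_iff_isPositive, ContinuousLinearMap.isPositive_def']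
    constructor
    · rw [IsSelfAdjoint, hZ, star_sub, star_smul, star_smul, star_add, star_star, star_one,
        add_comm (star Y) Y]
      congr 2
      · simp
      · simp
    · intro x
      have h2 : ⟪x, Z x⟫_ℂ = (1 / 2 : ℂ) * (⟪x, Y x⟫_ℂ + ⟪Y x, x⟫_ℂ) - (u : ℂ) * ⟪x, x⟫_ℂ := by
        rw [hZ]
        simp only [sub_apply, smul_apply,
          add_apply, inner_sub_right, inner_smul_right, inner_add_right,
          ContinuousLinearMap.star_eq_adjoint, ContinuousLinearMap.adjoint_inner_right]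
        rfl
      have h3 : (⟪x, Z x⟫_ℂ).re = (⟪x, Y x⟫_ℂ).re - u * ‖x‖ ^ 2 := by
        have h4 : (⟪Y x, x⟫_ℂ).re = (⟪x, Y x⟫_ℂ).re := by
          rw [← inner_conj_symm, Complex.conj_re]
        have h5 : (⟪x, x⟫_ℂ).re = ‖x‖ ^ 2 := inner_self_eq_norm_sq (𝕜 := ℂ) x
        have h6 : (1 / 2 : ℂ) = ((1 / 2 : ℝ) : ℂ) := by push_cast; rfl
        rw [h2, h6, Complex.sub_re, Complex.re_ofReal_mul, Complex.re_ofReal_mul, Complex.add_re,
          h4, h5]
        ring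
      rw [ContinuousLinearMap.reApplyInnerSelf_apply, ← inner_conj_symm, RCLike.conj_re,
        RCLike.re_eq_complex_re, h3]
      linarith [hlow x]
  obtain ⟨S, hS⟩ := CStarAlgebra.nonneg_iff_eq_star_mul_self.1 hZpos
  have h5 := hpos S
  rw [← hS, hZ, map_sub, map_smul, map_smul, map_add, hstar, hφY, h1] at h5
  simp at h5
  linarith

end

end Pool.Agent.N163.QW
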